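import Pool.Agent.NH9.PX.SET

/-! # The combinatorial core of the construction of `R`, for an arbitrary step `M` -/

set_option autoImplicit false

namespace Pool.Agent.NH9.PY

open Finset Pool.Agent.NH9.PX Pool.Agent.NH9.PX.SET

/-- the interval with step `M` -/
noncomputable def ivM (M lo hi : ℤ) : Finset ℤ := (Ico lo hi).filter fun a => M ∣ a - lo

lemma mem_ivM {M lo hi a : ℤ} : a ∈ ivM M lo hi ↔ lo ≤ a ∧ a < hi ∧ M ∣ a - lo := by
  unfold ivM
  rw [mem_filter, mem_Ico, and_assoc]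

lemma ivM_succ {M : ℤ} (hM : 0 < M) (lo : ℤ) (n : ℕ) :
    ivM M lo (lo + M * (n + 1 : ℕ)) = insert (lo + M * n) (ivM M lo (lo + M * n)) := by
  ext a
  rw [mem_insert, mem_ivM, mem_ivM]
  constructor
  · rintro ⟨h1, h2, c, hc⟩
    have h3 : c < n + 1 := by
      have : M * c < M * (n + 1 : ℕ) := by linarith
      have := lt_of_mul_lt_mul_left this hM.le
      exact_mod_cast this
    rcases lt_or_eq_of_le (Int.lt_add_one_iff.1 h3) with h | h
    · right
      refine ⟨h1, ?_, c, hc⟩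
      have : M * c < M * n := mul_lt_mul_of_pos_left h hM
      linarith
    · left
      rw [h] at hc
      linarith
  · rintro (h | ⟨h1, h2, h3⟩)
    · subst h
      have hn : (0 : ℤ) ≤ M * n := by positivity
      refine ⟨by linarith, ?_, n, by ring⟩
      push_cast
      nlinarith
    · refine ⟨h1, ?_, h3⟩
      push_cast
      nlinarith

lemma telM {M : ℤ} (hM : 0 < M) (lo hi : ℤ) (h : lo ≤ hi) (hd : M ∣ hi - lo) :
    (∀ x : ℤ, PR (ivM M lo hi) x * (x - hi) = (x - lo) * PR (ivM M lo hi) (x - M)) ∧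
    M * ((ivM M lo hi).card : ℤ) = hi - lo := by
  obtain ⟨c, hc⟩ := hd
  have hc0 : 0 ≤ c := by
    by_contra hneg
    push Not at hneg
    have : M * c < 0 := mul_neg_of_pos_of_neg hM hneg
    linarith
  obtain ⟨n, rfl⟩ := Int.eq_ofNat_of_zero_le hc0
  have hhi : hi = lo + M * n := by linarith
  subst hhi
  clear h hc hc0
  induction n with
  | zero =>
    have : ivM M lo (lo + M * ((0 : ℕ) : ℤ)) = ∅ := by
      ext a
      rw [mem_ivM]
      simp only [notMem_empty, iff_false]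
      rintro ⟨h1, h2, -⟩
      push_cast at h2
      linarith
    rw [this]
    refine ⟨fun x => ?_, by simp⟩
    simp [PR]
  | succ n ih =>
    obtain ⟨ih1, ih2⟩ := ih
    have hnot : lo + M * (n : ℤ) ∉ ivM M lo (lo + M * n) := by
      rw [mem_ivM]
      rintro ⟨-, h, -⟩
      exact lt_irrefl _ h
    rw [ivM_succ hM]
    refine ⟨fun x => ?_, ?_⟩
    · have h1 : ∀ y, PR (insert (lo + M * (n : ℤ)) (ivM M lo (lo + M * n))) y =
          (y - (lo + M * n)) * PR (ivM M lo (lo + M * n)) y := fun y => by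
        unfold PR
        rw [prod_insert hnot]
      rw [h1, h1]
      have h2 := ih1 x
      push_cast
      linear_combination (x - (lo + M * (n + 1))) * h2
    · rw [card_insert_of_notMem hnot]
      push_cast
      linarith

/-- the combinatorial core -/
theorem core {M : ℤ} (hM : 0 < M) {D : ℕ} (hD1 : 1 ≤ D) (T W t t' : ℤ) (u : Finset ℕ → ℤ)
    (hW : 0 ≤ W) (htt : ¬ M ∣ t - t')
    (hu0 : u {0} = T) (hu1 : u ∅ < - W)
    (ho4 : ∀ e ⊆ range D, 0 ∉ e → e ≠ ∅ →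
      W < u (insert 0 e) ∧ u (insert 0 e) < u e ∧ u e ≤ T - M) (hTW : W + M < T)
    (ho5 : ∀ e ⊆ range D, ∀ f ⊆ range D, 0 ∉ e → 0 ∉ f → e ≠ ∅ → f ≠ ∅ → e ≠ f →
      u f ≤ u (insert 0 e) ∨ u e ≤ u (insert 0 f))
    (ho6 : ∀ e ⊆ range D, 0 ∉ e →
      M ∣ u e - (if e.card % 2 = 0 then t else t') ∧
      M ∣ u (insert 0 e) - (if e.card % 2 = 0 then t else t')) :
    ∃ R : Finset ℤ,
      (∀ a ∈ R, M ∣ a - t ∨ M ∣ a - t') ∧
      (∀ a, u ∅ ≤ a → a ≤ W → (a ∈ R ↔ M ∣ a - t)) ∧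
      (T - M ∈ R) ∧
      (M * (R.card : ℤ) = (∑ e ∈ QO D, (u e - u (insert 0 e))) -
        ∑ e ∈ QE D, (u e - u (insert 0 e))) ∧
      (∀ x : ℤ, ¬ M ∣ x - t → ¬ M ∣ x - t' →
        PR R x * ∏ e ∈ Od D, (x - u e) = PR R (x - M) * ∏ e ∈ Ev D, (x - u e)) := by
  classical
  set I : Finset ℕ → Finset ℤ := fun e => ivM M (u (insert 0 e)) (u e) with hI
  set J : Finset ℤ := ivM M (u ∅) T with hJ
  set EE : Finset (Finset ℕ) := (QE D).erase ∅ with hEE
  set EO : Finset (Finset ℕ) := QO D with hEO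
  have hempty : (∅ : Finset ℕ) ∈ QE D := by
    unfold QE
    simp
  have hEEm : ∀ e ∈ EE, (e ⊆ range D ∧ 0 ∉ e) ∧ e ≠ ∅ ∧ e.card % 2 = 0 := by
    intro e he
    rw [hEE, mem_erase] at he
    obtain ⟨h1, h2⟩ := he
    unfold QE at h2
    rw [mem_filter] at h2
    exact ⟨mem_Q h2.1, h1, h2.2⟩
  have hEOm : ∀ e ∈ EO, (e ⊆ range D ∧ 0 ∉ e) ∧ e ≠ ∅ ∧ e.card % 2 = 1 := by
    intro e he
    rw [hEO] at he
    unfold QO at he
    rw [mem_filter] at he
    refine ⟨mem_Q he.1, ?_, he.2⟩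
    rintro rfl
    simp at he
  have h00 := ho6 ∅ (empty_subset _) (notMem_empty _)
  have h12 : insert 0 (∅ : Finset ℕ) = {0} := rfl
  rw [h12, hu0] at h00
  simp only [card_empty, Nat.zero_mod, if_true] at h00
  have hdd : ∀ a b c : ℤ, M ∣ a - b → M ∣ b - c → M ∣ a - c := fun a b c h1 h2 => by
    have := dvd_add h1 h2
    rwa [sub_add_sub_cancel] at this
  have hmodE : ∀ e ∈ EE, ∀ a ∈ I e, M ∣ a - t := by
    intro e he a ha
    obtain ⟨⟨h1, h2⟩, h3, h4⟩ := hEEm e he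
    obtain ⟨h5, h6⟩ := ho6 e h1 h2
    rw [if_pos h4] at h6
    exact hdd _ _ _ (mem_ivM.1 ha).2.2 h6
  have hmodO : ∀ e ∈ EO, ∀ a ∈ I e, M ∣ a - t' := by
    intro e he a ha
    obtain ⟨⟨h1, h2⟩, h3, h4⟩ := hEOm e he
    obtain ⟨h5, h6⟩ := ho6 e h1 h2
    rw [if_neg (by omega)] at h6
    exact hdd _ _ _ (mem_ivM.1 ha).2.2 h6
  have hmodJ : ∀ a ∈ J, M ∣ a - t := fun a ha => hdd _ _ _ (mem_ivM.1 ha).2.2 h00.1
  have hdis : ∀ e f, (e ⊆ range D ∧ 0 ∉ e) → e ≠ ∅ → (f ⊆ range D ∧ 0 ∉ f) → f ≠ ∅ → e ≠ f →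
      Disjoint (I e) (I f) := by
    intro e f he he' hf hf' hef
    rw [disjoint_left]
    intro a ha hb
    have h1 := mem_ivM.1 ha
    have h2 := mem_ivM.1 hb
    rcases ho5 e he.1 f hf.1 he.2 hf.2 he' hf' hef with h | h
    · linarith [h1.1, h2.2.1]
    · linarith [h2.1, h1.2.1]
  have hdisE : ∀ e ∈ EE, ∀ f ∈ EE, e ≠ f → Disjoint (I e) (I f) := fun e he f hf hef =>
    hdis e f (hEEm e he).1 (hEEm e he).2.1 (hEEm f hf).1 (hEEm f hf).2.1 hef
  have hdisO : ∀ e ∈ EO, ∀ f ∈ EO, e ≠ f → Disjoint (I e) (I f) := fun e he f hf hef =>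
    hdis e f (hEOm e he).1 (hEOm e he).2.1 (hEOm f hf).1 (hEOm f hf).2.1 hef
  set U : Finset ℤ := EE.biUnion I with hU
  set V : Finset ℤ := EO.biUnion I with hV
  have hUJ : U ⊆ J := by
    intro a ha
    rw [hU, mem_biUnion] at ha
    obtain ⟨e, he, ha⟩ := ha
    obtain ⟨⟨h1, h2⟩, h3, h4⟩ := hEEm e he
    obtain ⟨h5, h6, h7⟩ := ho4 e h1 h2 h3
    have h8 := hmodE e he a ha
    have h9 := mem_ivM.1 ha
    rw [hJ, mem_ivM]
    refine ⟨by linarith [h9.1], by linarith [h9.2.1], ?_⟩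
    have := dvd_sub h8 h00.1
    rwa [sub_sub_sub_cancel_right] at this
  have hUpos : ∀ a ∈ U, W < a ∧ a < T - M := by
    intro a ha
    rw [hU, mem_biUnion] at ha
    obtain ⟨e, he, ha⟩ := ha
    obtain ⟨⟨h1, h2⟩, h3, h4⟩ := hEEm e he
    obtain ⟨h5, h6, h7⟩ := ho4 e h1 h2 h3
    have h9 := mem_ivM.1 ha
    exact ⟨by linarith [h9.1], by linarith [h9.2.1]⟩
  have hVpos : ∀ a ∈ V, W < a := by
    intro a ha
    rw [hV, mem_biUnion] at ha
    obtain ⟨e, he, ha⟩ := ha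
    obtain ⟨⟨h1, h2⟩, h3, h4⟩ := hEOm e he
    obtain ⟨h5, h6, h7⟩ := ho4 e h1 h2 h3
    have h9 := mem_ivM.1 ha
    linarith [h9.1]
  have hVmod : ∀ a ∈ V, M ∣ a - t' := by
    intro a ha
    rw [hV, mem_biUnion] at ha
    obtain ⟨e, he, ha⟩ := ha
    exact hmodO e he a ha
  have hJV : Disjoint (J \ U) V := by
    rw [disjoint_left]
    intro a ha hb
    have h1 := hmodJ a (mem_sdiff.1 ha).1
    have h2 := hVmod a hb
    apply htt
    have := dvd_sub h2 h1
    rwa [sub_sub_sub_cancel_left] at this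
  have hTEL := fun e (he : e ⊆ range D) (h0 : 0 ∉ e) (h1 : e ≠ ∅) =>
    telM hM (u (insert 0 e)) (u e) (ho4 e he h0 h1).2.1.le (by
      have h2 := ho6 e he h0
      have := dvd_sub h2.1 h2.2
      rwa [sub_sub_sub_cancel_right] at this)
  have hTELJ := telM hM (u ∅) T (by linarith) (by
      have := dvd_sub h00.2 h00.1
      rwa [sub_sub_sub_cancel_right] at this)
  refine ⟨(J \ U) ∪ V, ?_, ?_, ?_, ?_, ?_⟩
  · intro a ha
    rw [mem_union] at ha
    rcases ha with ha | ha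
    · exact Or.inl (hmodJ a (mem_sdiff.1 ha).1)
    · exact Or.inr (hVmod a ha)
  · intro a ha1 ha2
    rw [mem_union, mem_sdiff]
    constructor
    · rintro (h | h)
      · exact hmodJ a h.1
      · exact absurd (hVpos a h) (not_lt.2 ha2)
    · intro h
      refine Or.inl ⟨?_, fun h' => absurd (hUpos a h').1 (not_lt.2 ha2)⟩
      rw [hJ, mem_ivM]
      refine ⟨by linarith, by linarith, ?_⟩
      have := dvd_sub h h00.1
      rwa [sub_sub_sub_cancel_right] at this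
  · rw [mem_union, mem_sdiff]
    refine Or.inl ⟨?_, fun h => ?_⟩
    · rw [hJ, mem_ivM]
      refine ⟨by linarith, by linarith, ?_⟩
      have h1 := dvd_sub h00.2 h00.1
      rw [sub_sub_sub_cancel_right] at h1
      have h2 := dvd_sub h1 (dvd_refl M)
      have h3 : T - M - u ∅ = T - u ∅ - M := by ring
      rwa [h3]
    · exact absurd (hUpos _ h).2 (lt_irrefl _)
  · have h1 : ((J \ U) ∪ V).card = (J \ U).card + V.card := card_union_of_disjoint hJV
    have h2 : (J \ U).card + U.card = J.card := card_sdiff_add_card_eq_card hUJ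
    have h3 : U.card = ∑ e ∈ EE, (I e).card := card_biUnion fun e he f hf hef => hdisE e he f hf hef
    have h4 : V.card = ∑ e ∈ EO, (I e).card := card_biUnion fun e he f hf hef => hdisO e he f hf hef
    have h5 : M * (U.card : ℤ) = ∑ e ∈ EE, (u e - u (insert 0 e)) := by
      rw [h3, Nat.cast_sum, mul_sum]
      exact sum_congr rfl fun e he => (hTEL e (hEEm e he).1.1 (hEEm e he).1.2 (hEEm e he).2.1).2
    have h6 : M * (V.card : ℤ) = ∑ e ∈ EO, (u e - u (insert 0 e)) := by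
      rw [h4, Nat.cast_sum, mul_sum]
      exact sum_congr rfl fun e he => (hTEL e (hEOm e he).1.1 (hEOm e he).1.2 (hEOm e he).2.1).2
    have h7 : ∑ e ∈ QE D, (u e - u (insert 0 e)) = (u ∅ - T) + ∑ e ∈ EE, (u e - u (insert 0 e)) := by
      rw [← add_sum_erase (QE D) _ hempty, h12, hu0]
    have h8 : M * (J.card : ℤ) = T - u ∅ := hTELJ.2
    have h9 : (((J \ U).card : ℤ)) = J.card - U.card := by
      have : (((J \ U).card : ℤ)) + U.card = J.card := by exact_mod_cast h2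
      linarith
    rw [h1, h7]
    push_cast
    rw [h9]
    linear_combination h8 - h5 + h6
  · intro x hxt hxt'
    have hid : ∀ y : ℤ, PR ((J \ U) ∪ V) y * ∏ e ∈ EE, PR (I e) y =
        PR J y * ∏ e ∈ EO, PR (I e) y := by
      intro y
      have h1 : PR ((J \ U) ∪ V) y = PR (J \ U) y * PR V y := PR_union hJV y
      have h2 : PR J y = PR (J \ U) y * PR U y := by
        unfold PR
        rw [prod_sdiff hUJ]
      have h3 : PR U y = ∏ e ∈ EE, PR (I e) y := PR_biUnion hdisE y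
      have h4 : PR V y = ∏ e ∈ EO, PR (I e) y := PR_biUnion hdisO y
      rw [h1, h2, h3, h4]
      ring
    have hr := hid x
    have hr' := hid (x - M)
    have hpE : (∏ e ∈ EE, PR (I e) x) * (∏ e ∈ EE, (x - u e)) =
        (∏ e ∈ EE, (x - u (insert 0 e))) * ∏ e ∈ EE, PR (I e) (x - M) := by
      rw [← prod_mul_distrib, ← prod_mul_distrib]
      exact prod_congr rfl fun e he =>
        (hTEL e (hEEm e he).1.1 (hEEm e he).1.2 (hEEm e he).2.1).1 x
    have hpO : (∏ e ∈ EO, PR (I e) x) * (∏ e ∈ EO, (x - u e)) =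
        (∏ e ∈ EO, (x - u (insert 0 e))) * ∏ e ∈ EO, PR (I e) (x - M) := by
      rw [← prod_mul_distrib, ← prod_mul_distrib]
      exact prod_congr rfl fun e he =>
        (hTEL e (hEOm e he).1.1 (hEOm e he).1.2 (hEOm e he).2.1).1 x
    have hPJ : PR J x * (x - T) = (x - u ∅) * PR J (x - M) := hTELJ.1 x
    have hE1 : ∏ e ∈ Ev D, (x - u e) =
        ((x - u ∅) * ∏ e ∈ EE, (x - u e)) * ∏ e ∈ EO, (x - u (insert 0 e)) := by
      rw [prod_Ev hD1 (fun e => x - u e), ← mul_prod_erase (QE D) (fun e => x - u e) hempty]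
    have hO1 : ∏ e ∈ Od D, (x - u e) =
        (∏ e ∈ EO, (x - u e)) * ((x - T) * ∏ e ∈ EE, (x - u (insert 0 e))) := by
      rw [prod_Od hD1 (fun e => x - u e),
        ← mul_prod_erase (QE D) (fun e => x - u (insert 0 e)) hempty]
      rw [h12, hu0]
    have hxI : ∀ y : ℤ, ¬ M ∣ y - t → ∀ e ∈ EE, PR (I e) y ≠ 0 := by
      intro y hy e he
      exact PR_ne fun h => hy (hmodE e he y h)
    have hxM : ¬ M ∣ (x - M) - t := fun h => hxt (by
      have := dvd_add h (dvd_refl M)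
      have h3 : x - M - t + M = x - t := by ring
      rwa [h3] at this)
    have h1 : (∏ e ∈ EE, PR (I e) x) ≠ 0 := prod_ne_zero_iff.2 (hxI x hxt)
    have h2 : (∏ e ∈ EE, PR (I e) (x - M)) ≠ 0 := prod_ne_zero_iff.2 (hxI (x - M) hxM)
    rw [hE1, hO1]
    apply mul_right_cancel₀ (mul_ne_zero h1 h2)
    generalize (∏ e ∈ EE, PR (I e) x) = pE at *
    generalize (∏ e ∈ EE, PR (I e) (x - M)) = pE' at *
    generalize (∏ e ∈ EO, PR (I e) x) = pO at *
    generalize (∏ e ∈ EO, PR (I e) (x - M)) = pO' at *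
    generalize (∏ e ∈ EE, (x - u e)) = aE at *
    generalize (∏ e ∈ EO, (x - u e)) = aO at *
    generalize (∏ e ∈ EE, (x - u (insert 0 e))) = bE at *
    generalize (∏ e ∈ EO, (x - u (insert 0 e))) = bO at *
    calc PR ((J \ U) ∪ V) x * (aO * ((x - T) * bE)) * (pE * pE')
        = (PR ((J \ U) ∪ V) x * pE) * (x - T) * (aO * (bE * pE')) := by ring
      _ = (PR J x * pO) * (x - T) * (aO * (pE * aE)) := by rw [hr, hpE]
      _ = (PR J x * (x - T)) * (pO * aO) * (pE * aE) := by ring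
      _ = ((x - u ∅) * PR J (x - M)) * (bO * pO') * (pE * aE) := by rw [hPJ, hpO]
      _ = (x - u ∅) * (PR J (x - M) * pO') * bO * (pE * aE) := by ring
      _ = (x - u ∅) * (PR ((J \ U) ∪ V) (x - M) * pE') * bO * (pE * aE) := by rw [← hr']
      _ = PR ((J \ U) ∪ V) (x - M) * ((x - u ∅) * aE * bO) * (pE * pE') := by ring

end Pool.Agent.NH9.PY
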