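import Pool.Agent.NH9.PX.CRT
import Pool.Agent.NH78.PY.ALL
import Pool.Agent.NH78.PY.ATT
import Pool.Agent.NH78.PY.CMP
import Pool.Agent.NH78.PY.DAT
import Pool.Agent.NH78.PY.DER
import Pool.Agent.NH78.PY.EXC
import Pool.Agent.NH78.PY.GAP
import Pool.Agent.NH78.PY.GCL
import Pool.Agent.NH78.PY.GDT
import Pool.Agent.NH78.PY.GID
import Pool.Agent.NH78.PY.GUE
import Pool.Agent.NH78.PY.ORD
import Pool.Agent.NH78.PY.PAR
import Pool.Agent.NH78.PY.PRG
import Pool.Agent.NH78.PY.REF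
import Pool.Agent.NH78.PY.SCL
import Pool.Agent.NH78.PY.SEQ
import Pool.Agent.NH78.PY.SET
import Pool.Agent.NH78.PY.TEX
import Pool.Agent.NH78.PY.TOM
import Pool.Agent.NH78.PY.UNI

/-!
# Split integer polynomials of every large degree with the same positive value at `k` integers
-/

set_option autoImplicit false

namespace Pool.Agent.NH9.PY

open Pool.Agent.NH78.PY

theorem t_DATA : S_DAT :=
  t_DAT (t_ALL (t_GDT t_PAR t_GUE t_GCL t_GID t_TOM)
    (t_ATT (t_PRG t_SEQ (t_TEX Pool.Agent.NH9.PX.t_CRT (t_CMP t_GAP) t_GAP)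
      (t_SET t_TOM (t_ORD t_GAP) t_GAP)) t_REF t_SCL t_UNI) t_EXC) t_DER

end Pool.Agent.NH9.PY
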